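import Pool.Agent.V1132.WR.Fin

/-!
# The rational assembly map for Whitehead groups is injective for every group, relative form

Let `φ : Γ → G` be a homomorphism of groups (arbitrary groups, no finiteness hypothesis) such that
two elements `a`, `b` of finite order of `Γ` whose images are conjugate in `G` satisfy: `a` is
conjugate in `Γ` to `b` or to `b⁻¹`.  Then the kernel of

`colim Wh(H) → Wh(Γ) → Wh(G)`,

the colimit being over the finite subgroups `H` of `Γ` (and the maps given by conjugation with
elements of `Γ`), is a torsion group; more generally an element with torsion image is torsion.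

For `φ = id` the hypothesis is empty: for every group `G` the map
`colim Wh(H) ⊗ ℚ → Wh(G) ⊗ ℚ` is injective.  For a finite group `Γ` the colimit is `Wh(Γ)`: the
kernel of `Wh(Γ) ⊗ ℚ → Wh(G) ⊗ ℚ` is zero if `G` fuses elements of `Γ` only up to inversion.

The definitions are in `Pool.Agent.Y69.WhDef`.
-/

namespace Pool.Agent.Results.MP_9d1ffa_al.WhiteheadAssembly

open Pool.Agent.Y69.FJ

/-- If the elements of finite order of `Γ` which become conjugate in `G` under `φ : Γ → G` are
conjugate in `Γ` up to inversion, then the composition of the assembly map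
`colim Wh(H) → Wh(Γ)` over the finite subgroups of `Γ` with `Wh(Γ) → Wh(G)` has torsion kernel. -/
theorem result (Γ G : Type) [Group Γ] [Group G] (φ : Γ →* G)
    (hφ : ∀ a b : Γ, IsOfFinOrder a → IsOfFinOrder b → IsConj (φ a) (φ b) →
      IsConj a b ∨ IsConj a b⁻¹)
    (x : ColimWh Γ) (n : ℕ) (hn : 0 < n) (hx : n • Wh.map φ (assembly Γ x) = 0) :
    ∃ k : ℕ, 0 < k ∧ k • x = 0 :=
  Pool.Agent.V1132.WR.fj_rel φ hφ x n hn hx

end Pool.Agent.Results.MP_9d1ffa_al.WhiteheadAssembly
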